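import Mathlib

set_option autoImplicit false

namespace Pool.Agent.Results.MP_7a8221_co.OddSide

/-- Unit cells of the grid, by their integer coordinates. -/
abbrev Cell : Type := ℤ × ℤ

/-- The rotation of the grid by a right angle. -/
def rot : Cell → Cell := fun p => (p.2, -p.1)

/-- The reflection of the grid in a diagonal. -/
def refl : Cell → Cell := fun p => (p.2, p.1)

/-- The L-tetromino: a row of three cells with one extra cell attached at one end. -/
def L0 : Finset Cell := {(0, 0), (0, 1), (0, 2), (1, 0)}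

/-- The copy of the L-tetromino obtained by (reflecting if `ε` is true,) rotating `k` times by a
right angle and translating by `v`. -/
def copy (ε : Bool) (k : ℕ) (v : Cell) : Finset Cell :=
  L0.image fun p => rot^[k] (if ε then refl p else p) + v

/-- The two orientation classes of L-tetrominoes. -/
def InClass (ε : Bool) (t : Finset Cell) : Prop := ∃ k v, t = copy ε k v

/-- The `m × n` rectangle. -/
noncomputable def rect (m n : ℕ) : Finset Cell := Finset.Ico 0 (m : ℤ) ×ˢ Finset.Ico 0 (n : ℤ)

/-- The region `R` has a tiling by L-tetrominoes in the class `ε`. -/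
def TiledBy (ε : Bool) (R : Finset Cell) : Prop :=
  ∃ T : Finset (Finset Cell), (∀ t ∈ T, InClass ε t) ∧
    (T : Set (Finset Cell)).PairwiseDisjoint id ∧ T.biUnion id = R

/-- The `m × n` rectangle has a tiling by L-tetrominoes of a single orientation. -/
def SingleOrientation (m n : ℕ) : Prop := ∃ ε, TiledBy ε (rect m n)

/-- Translation of a finite set of cells. -/
def shift (v : Cell) (R : Finset Cell) : Finset Cell := R.image (· + v)

lemma mem_shift (v : Cell) (R : Finset Cell) (p : Cell) : p ∈ shift v R ↔ p - v ∈ R := by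
  unfold shift
  rw [Finset.mem_image]
  constructor
  · rintro ⟨q, hq, rfl⟩
    simpa using hq
  · intro h
    exact ⟨p - v, h, by simp⟩

lemma copy_shift (ε : Bool) (k : ℕ) (v w : Cell) : shift w (copy ε k v) = copy ε k (v + w) := by
  unfold shift copy
  rw [Finset.image_image]
  congr 1
  funext p
  simp [add_assoc]

lemma tiledBy_shift (ε : Bool) (v : Cell) (R : Finset Cell) (h : TiledBy ε R) :
    TiledBy ε (shift v R) := by
  obtain ⟨T, h1, h2, h3⟩ := h
  refine ⟨T.image (shift v), ?_, ?_, ?_⟩
  · intro t ht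
    obtain ⟨s, hs, rfl⟩ := Finset.mem_image.1 ht
    obtain ⟨k, w, rfl⟩ := h1 s hs
    exact ⟨k, w + v, copy_shift _ _ _ _⟩
  · intro t ht t' ht' hne
    rw [Finset.mem_coe] at ht ht'
    obtain ⟨s, hs, rfl⟩ := Finset.mem_image.1 ht
    obtain ⟨s', hs', rfl⟩ := Finset.mem_image.1 ht'
    have hss : s ≠ s' := fun h => hne (by rw [h])
    have hd := h2 hs hs' hss
    simp only [Function.onFun, id] at hd ⊢
    rw [Finset.disjoint_left] at hd ⊢
    intro p hp hp'
    rw [mem_shift] at hp hp'
    exact hd hp hp'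
  · ext p
    rw [mem_shift, ← h3]
    simp only [Finset.mem_biUnion, Finset.mem_image, id]
    constructor
    · rintro ⟨t, ⟨s, hs, rfl⟩, hp⟩
      exact ⟨s, hs, (mem_shift _ _ _).1 hp⟩
    · rintro ⟨s, hs, hp⟩
      exact ⟨_, ⟨s, hs, rfl⟩, (mem_shift _ _ _).2 hp⟩

lemma tiledBy_union (ε : Bool) (R S : Finset Cell) (hd : Disjoint R S) (hR : TiledBy ε R)
    (hS : TiledBy ε S) : TiledBy ε (R ∪ S) := by
  classical
  obtain ⟨T, h1, h2, h3⟩ := hR
  obtain ⟨U, g1, g2, g3⟩ := hS
  have hT : ∀ t ∈ T, t ⊆ R := by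
    intro t ht p hp
    rw [← h3]
    exact Finset.mem_biUnion.2 ⟨t, ht, hp⟩
  have hU : ∀ t ∈ U, t ⊆ S := by
    intro t ht p hp
    rw [← g3]
    exact Finset.mem_biUnion.2 ⟨t, ht, hp⟩
  refine ⟨T ∪ U, ?_, ?_, ?_⟩
  · intro t ht
    rcases Finset.mem_union.1 ht with h | h
    · exact h1 t h
    · exact g1 t h
  · intro t ht t' ht' hne
    rw [Finset.mem_coe, Finset.mem_union] at ht ht'
    rcases ht with ht | ht <;> rcases ht' with ht' | ht'
    · exact h2 ht ht' hne
    · exact Finset.disjoint_of_subset_left (hT t ht) (Finset.disjoint_of_subset_right (hU t' ht') hd)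
    · exact (Finset.disjoint_of_subset_left (hT t' ht')
        (Finset.disjoint_of_subset_right (hU t ht) hd)).symm
    · exact g2 ht ht' hne
  · rw [Finset.union_biUnion, h3, g3]

/-- The tiles of the tiling of the `5 × 8` rectangle. -/
def P58 : Finset (ℕ × Cell) := {(1, (0, 1)), (0, (0, 2)), (2, (2, 6)), (2, (1, 5)), (2, (4, 2)),
  (0, (3, 4)), (1, (2, 3)), (1, (0, 7)), (2, (4, 7)), (3, (3, 0))}

/-- The tiles of the tiling of the `2 × 8` rectangle. -/
def P28 : Finset (ℕ × Cell) := {(0, (0, 0)), (2, (1, 3)), (0, (0, 4)), (2, (1, 7))}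

lemma of_params (P : Finset (ℕ × Cell)) (R : Finset Cell)
    (h1 : ∀ p ∈ P, ∀ q ∈ P, p ≠ q → Disjoint (copy false p.1 p.2) (copy false q.1 q.2))
    (h2 : P.biUnion (fun p => copy false p.1 p.2) = R) : TiledBy false R := by
  refine ⟨P.image fun p => copy false p.1 p.2, ?_, ?_, ?_⟩
  · intro t ht
    obtain ⟨p, -, rfl⟩ := Finset.mem_image.1 ht
    exact ⟨p.1, p.2, rfl⟩
  · intro t ht t' ht' hne
    rw [Finset.mem_coe] at ht ht'
    obtain ⟨p, hp, rfl⟩ := Finset.mem_image.1 ht
    obtain ⟨q, hq, rfl⟩ := Finset.mem_image.1 ht'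
    exact h1 p hp q hq (fun h => hne (by rw [h]))
  · rw [Finset.image_biUnion]
    exact h2

lemma tiled58 : TiledBy false (rect 5 8) := by
  apply of_params P58
  · decide +kernel
  · decide +kernel

lemma tiled28 : TiledBy false (rect 2 8) := by
  apply of_params P28
  · decide +kernel
  · decide +kernel

lemma rect_add_left (a b n : ℕ) :
    rect (a + b) n = rect a n ∪ shift ((a : ℤ), 0) (rect b n) := by
  ext p
  rw [Finset.mem_union, mem_shift]
  simp only [rect, Finset.mem_product, Finset.mem_Ico, Prod.fst_sub, Prod.snd_sub]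
  push_cast
  omega

lemma disj_left (a b n : ℕ) : Disjoint (rect a n) (shift ((a : ℤ), 0) (rect b n)) := by
  rw [Finset.disjoint_left]
  intro p hp hp'
  rw [mem_shift] at hp'
  simp only [rect, Finset.mem_product, Finset.mem_Ico, Prod.fst_sub, Prod.snd_sub] at hp hp'
  omega

lemma rect_add_right (m a b : ℕ) :
    rect m (a + b) = rect m a ∪ shift (0, (a : ℤ)) (rect m b) := by
  ext p
  rw [Finset.mem_union, mem_shift]
  simp only [rect, Finset.mem_product, Finset.mem_Ico, Prod.fst_sub, Prod.snd_sub]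
  push_cast
  omega

lemma disj_right (m a b : ℕ) : Disjoint (rect m a) (shift (0, (a : ℤ)) (rect m b)) := by
  rw [Finset.disjoint_left]
  intro p hp hp'
  rw [mem_shift] at hp'
  simp only [rect, Finset.mem_product, Finset.mem_Ico, Prod.fst_sub, Prod.snd_sub] at hp hp'
  omega

lemma tiled_odd8 (j : ℕ) : TiledBy false (rect (5 + 2 * j) 8) := by
  induction j with
  | zero => exact tiled58
  | succ j ih =>
    rw [show 5 + 2 * (j + 1) = (5 + 2 * j) + 2 by ring, rect_add_left]
    exact tiledBy_union _ _ _ (disj_left _ _ _) ih (tiledBy_shift _ _ _ tiled28)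

lemma tiled_odd (j k : ℕ) : TiledBy false (rect (5 + 2 * j) (8 * (k + 1))) := by
  induction k with
  | zero => exact tiled_odd8 j
  | succ k ih =>
    rw [show 8 * (k + 1 + 1) = 8 * (k + 1) + 8 by ring, rect_add_right]
    exact tiledBy_union _ _ _ (disj_right _ _ _) ih (tiledBy_shift _ _ _ (tiled_odd8 j))

/-- **Rectangles with an odd side tiled by L-tetrominoes of a single orientation.**
Every `m × n` rectangle with `m ≥ 5` odd and `n ≥ 1` divisible by `8` has a tiling by L-tetrominoes
of a single orientation; consequently (already for the `5 × 8` rectangle) it is not true that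
a rectangle has such a tiling if and only if one side is divisible by `4` and the other is even. -/
theorem result :
    (∀ m n : ℕ, 5 ≤ m → Odd m → 1 ≤ n → 8 ∣ n → SingleOrientation m n) ∧
    ¬ (∀ m n : ℕ, 1 ≤ m → 1 ≤ n →
      (SingleOrientation m n ↔ ((4 ∣ m ∧ Even n) ∨ (4 ∣ n ∧ Even m)))) := by
  have key : ∀ m n : ℕ, 5 ≤ m → Odd m → 1 ≤ n → 8 ∣ n → SingleOrientation m n := by
    intro m n hm hodd hn h8
    obtain ⟨a, ha⟩ := hodd
    obtain ⟨b, hb⟩ := h8
    refine ⟨false, ?_⟩
    have h1 : m = 5 + 2 * (a - 2) := by omega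
    have h2 : n = 8 * (b - 1 + 1) := by omega
    rw [h1, h2]
    exact tiled_odd _ _
  refine ⟨key, fun h => ?_⟩
  have h58 := (h 5 8 (by norm_num) (by norm_num)).1
    (key 5 8 (by norm_num) (by decide) (by norm_num) (by norm_num))
  revert h58
  decide

end Pool.Agent.Results.MP_7a8221_co.OddSide
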